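import Pool.Agent.H488.FO.Metric

/-!
# The multiplication by polynomials on the torus and the orbits of the automatic points
-/

set_option autoImplicit false
set_option linter.unusedSectionVars false

namespace H488.FO

open Polynomial

variable {F : Type*} [Field F] [Fintype F]

/-- Multiplication by the polynomial `a`: `t ^ j` moves the digit at `m + j` to the place `m`. -/
noncomputable def act (a : F[X]) (s : ℕ → F) : ℕ → F :=
  fun m => ∑ j ∈ Finset.range (a.natDegree + 1), a.coeff j * s (m + j)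

/-- the shift as a linear map -/
noncomputable def sh (F : Type*) [Field F] : Module.End F (ℕ → F) where
  toFun s := fun m => s (m + 1)
  map_add' _ _ := rfl
  map_smul' _ _ := rfl

lemma sh_pow (j : ℕ) (s : ℕ → F) (m : ℕ) : ((sh F) ^ j) s m = s (m + j) := by
  induction j generalizing m with
  | zero => rfl
  | succ j ih =>
    rw [pow_succ', Module.End.mul_apply]
    show ((sh F) ^ j) s (m + 1) = _
    rw [ih]
    congr 1
    omega

lemma act_eq (a : F[X]) (s : ℕ → F) : act a s = aeval (sh F) a s := by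
  funext m
  rw [aeval_eq_sum_range, LinearMap.sum_apply, Finset.sum_apply]
  unfold act
  apply Finset.sum_congr rfl
  intro j _
  rw [LinearMap.smul_apply, Pi.smul_apply, smul_eq_mul, sh_pow]

lemma act_sum_range {a : F[X]} {n : ℕ} (h : a.natDegree < n) (s : ℕ → F) (m : ℕ) :
    act a s m = ∑ j ∈ Finset.range n, a.coeff j * s (m + j) := by
  unfold act
  apply Finset.sum_subset (Finset.range_mono h)
  intro j _ hj
  rw [Finset.mem_range, not_lt] at hj
  rw [coeff_eq_zero_of_natDegree_lt hj, zero_mul]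

lemma act_mul (a b : F[X]) (s : ℕ → F) : act (a * b) s = act a (act b s) := by
  rw [act_eq, act_eq, act_eq, map_mul, Module.End.mul_apply]

lemma act_add (a : F[X]) (s s' : ℕ → F) : act a (s + s') = act a s + act a s' := by
  rw [act_eq, act_eq, act_eq, map_add]

lemma act_congr {a : F[X]} {s s' : ℕ → F} {m : ℕ} {d : ℕ} (hd : a.natDegree ≤ d)
    (h : ∀ j ≤ d, s (m + j) = s' (m + j)) : act a s m = act a s' m := by
  unfold act
  apply Finset.sum_congr rfl
  intro j hj
  rw [Finset.mem_range] at hj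
  rw [h j (by omega)]

lemma expand_pow_card (k : ℕ) (a : F[X]) :
    expand F (Fintype.card F ^ k) a = a ^ (Fintype.card F ^ k) := by
  induction k with
  | zero => simp
  | succ k ih =>
    rw [pow_succ', expand_mul, ih, FiniteField.expand_card, ← pow_mul, mul_comm]

lemma act_expand (N : ℕ) (M : F[X]) (x : ℕ → F) (m : ℕ) (hN : 0 < N) :
    act (expand F N M) x m = act M (fun i => x (N * i + m % N)) (m / N) := by
  rw [act_eq, expand_aeval, aeval_eq_sum_range, LinearMap.sum_apply, Finset.sum_apply]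
  unfold act
  apply Finset.sum_congr rfl
  intro j _
  rw [LinearMap.smul_apply, Pi.smul_apply, smul_eq_mul, ← pow_mul, sh_pow]
  congr 2
  have := Nat.div_add_mod m N
  rw [Nat.mul_add]
  omega

/-- A sequence is `q`-automatic: it belongs to a finite set of sequences which contains with `v` the
sequences `i ↦ v (q i + ρ)`, `ρ < q`. -/
def Automatic (x : ℕ → F) : Prop :=
  ∃ S : Set (ℕ → F), S.Finite ∧ x ∈ S ∧
    ∀ v ∈ S, ∀ ρ < Fintype.card F, (fun i => v (Fintype.card F * i + ρ)) ∈ S

lemma kernel_mem {S : Set (ℕ → F)}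
    (hS : ∀ v ∈ S, ∀ ρ < Fintype.card F, (fun i => v (Fintype.card F * i + ρ)) ∈ S) (k : ℕ) :
    ∀ v ∈ S, ∀ ρ < Fintype.card F ^ k, (fun i => v (Fintype.card F ^ k * i + ρ)) ∈ S := by
  induction k with
  | zero =>
    intro v hv ρ hρ
    have : ρ = 0 := by simpa using hρ
    subst this
    simpa using hv
  | succ k ih =>
    intro v hv ρ hρ
    have hq : 0 < Fintype.card F := Fintype.card_pos
    have h1 : ρ % Fintype.card F < Fintype.card F := Nat.mod_lt _ hq
    have h2 : ρ / Fintype.card F < Fintype.card F ^ k := by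
      rw [Nat.div_lt_iff_lt_mul hq]
      rwa [pow_succ] at hρ
    have h3 := ih _ (hS v hv _ h1) _ h2
    convert h3 using 1
    funext i
    congr 1
    have := Nat.div_add_mod ρ (Fintype.card F)
    rw [Nat.mul_add, pow_succ']
    nth_rewrite 1 [← this]
    ring

/-- The orbit of `x` under the multiplicative semigroup generated by the polynomials `a i`. -/
def orbit {r : ℕ} (a : Fin r → F[X]) (x : ℕ → F) : Set (Torus F) :=
  {s | ∃ n : Fin r → ℕ, s = act (∏ i, a i ^ n i) x}

theorem words_pow_bound {x : ℕ → F} (hx : Automatic x) {r : ℕ} (a : Fin r → F[X]) :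
    ∃ C : ℕ, ∀ k : ℕ, (words (Fintype.card F ^ k) (orbit a x)).ncard
      ≤ C * (Fintype.card F ^ k) ^ r := by
  classical
  obtain ⟨S, hfin, hxS, hS⟩ := hx
  let _inst : Fintype S := hfin.fintype
  set q := Fintype.card F with hq
  have hq0 : 0 < q := Fintype.card_pos
  set d := ∑ i, (a i).natDegree with hd
  refine ⟨(q ^ (d + 1)) ^ Fintype.card S, fun k => ?_⟩
  set N := q ^ k with hN
  have hN0 : 0 < N := pow_pos hq0 k
  have hker : ∀ m : ℕ, (fun i => x (N * i + m % N)) ∈ S := fun m =>
    kernel_mem hS k x hxS (m % N) (Nat.mod_lt _ hN0)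
  let z : (S → Fin (d + 1) → F) → ℕ → F := fun g m =>
    if h : m / N < d + 1 then g ⟨_, hker m⟩ ⟨m / N, h⟩ else 0
  let Φ : (Fin r → Fin N) × (S → Fin (d + 1) → F) → (Fin N → F) := fun e i =>
    act (∏ l, a l ^ (e.1 l : ℕ)) (z e.2) i
  have hsub : words N (orbit a x) ⊆ Set.range Φ := by
    rintro w ⟨s, ⟨n, rfl⟩, rfl⟩
    set M : F[X] := ∏ l, a l ^ (n l / N) with hM
    set R : F[X] := ∏ l, a l ^ (n l % N) with hR
    have hprod : ∏ l, a l ^ n l = R * expand F N M := by
      rw [hN, expand_pow_card k, ← hN, hM, hR, ← Finset.prod_pow, ← Finset.prod_mul_distrib]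
      apply Finset.prod_congr rfl
      intro l _
      rw [← pow_mul, ← pow_add, mul_comm (n l / N) N, Nat.mod_add_div]
    refine ⟨(fun l => ⟨n l % N, Nat.mod_lt _ hN0⟩, fun v i => act M v.1 i), ?_⟩
    funext i
    show act R (z fun v i => act M v.1 i) i = act (∏ l, a l ^ n l) x i
    rw [hprod, act_mul]
    have hRd : R.natDegree ≤ (N - 1) * d := by
      rw [hR, hd, Finset.mul_sum]
      refine (natDegree_prod_le _ _).trans (Finset.sum_le_sum fun l _ => ?_)
      refine natDegree_pow_le.trans (Nat.mul_le_mul_right _ ?_)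
      have := Nat.mod_lt (n l) hN0
      omega
    apply act_congr hRd
    intro j hj
    have hlt : (i.1 + j) / N < d + 1 := by
      rw [Nat.div_lt_iff_lt_mul hN0]
      have h1 : i.1 ≤ N - 1 := Nat.le_sub_one_of_lt i.2
      have h2 : i.1 + j ≤ (N - 1) * (d + 1) := by
        rw [Nat.mul_add, Nat.mul_one]; omega
      have h3 : (N - 1) * (d + 1) < N * (d + 1) :=
        Nat.mul_lt_mul_of_pos_right (Nat.sub_lt hN0 one_pos) (Nat.succ_pos d)
      rw [mul_comm (d + 1) N]
      omega
    show (if h : (i.1 + j) / N < d + 1 then _ else _) = _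
    rw [dif_pos hlt, act_expand N M x (i.1 + j) hN0]
  have h1 : (words N (orbit a x)).ncard ≤ (Set.range Φ).ncard :=
    Set.ncard_le_ncard hsub (Set.toFinite _)
  have h2 : (Set.range Φ).ncard ≤ Fintype.card ((Fin r → Fin N) × (S → Fin (d + 1) → F)) := by
    rw [← Set.image_univ, ← Nat.card_eq_fintype_card, ← Set.ncard_univ]
    exact Set.ncard_image_le (Set.toFinite _)
  refine (h1.trans h2).trans (le_of_eq ?_)
  rw [Fintype.card_prod, Fintype.card_fun, Fintype.card_fun, Fintype.card_fun, Fintype.card_fin,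
    Fintype.card_fin, Fintype.card_fin, ← hq, mul_comm]

lemma words_mono {A : Set (Torus F)} {n N : ℕ} (h : n ≤ N) :
    (words n A).ncard ≤ (words N A).ncard := by
  have e : words n A = (fun (w : Fin N → F) (i : Fin n) => w (Fin.castLE h i)) '' words N A := by
    ext w
    constructor
    · rintro ⟨s, hs, rfl⟩
      exact ⟨_, ⟨s, hs, rfl⟩, rfl⟩
    · rintro ⟨_, ⟨s, hs, rfl⟩, rfl⟩
      exact ⟨s, hs, rfl⟩
  rw [e]
  exact Set.ncard_image_le (Set.toFinite _)

theorem words_bound {x : ℕ → F} (hx : Automatic x) {r : ℕ} (a : Fin r → F[X]) :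
    ∃ C : ℕ, ∀ n : ℕ, 1 ≤ n → (words n (closure (orbit a x))).ncard ≤ C * n ^ r := by
  obtain ⟨C, hC⟩ := words_pow_bound hx a
  set q := Fintype.card F with hq
  have hq1 : 1 < q := Fintype.one_lt_card
  refine ⟨C * q ^ r, fun n hn => ?_⟩
  rw [words_closure]
  have h1 : n < q ^ (Nat.log q n + 1) := Nat.lt_pow_succ_log_self hq1 n
  have h2 : q ^ Nat.log q n ≤ n := Nat.pow_log_le_self q (by omega)
  refine (words_mono h1.le).trans ((hC _).trans ?_)
  rw [mul_assoc, ← mul_pow]
  apply Nat.mul_le_mul_left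
  apply Nat.pow_le_pow_left
  rw [pow_succ']
  exact Nat.mul_le_mul_left _ h2

/-- **Every orbit closure of an automatic point has dimension zero.** -/
theorem dimH_closure_orbit {x : ℕ → F} (hx : Automatic x) {r : ℕ} (a : Fin r → F[X]) :
    dimH (closure (orbit a x)) = 0 := by
  obtain ⟨C, hC⟩ := words_bound hx a
  exact dimH_eq_zero_of_words hC

end H488.FO
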