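import Pool.Agent.H488.FO.Metric

/-!
# The torus has dimension one
-/

set_option autoImplicit false
set_option linter.unusedSectionVars false

namespace H488.FO

open Filter Topology MeasureTheory
open scoped ENNReal NNReal

variable {F : Type*} [Field F] [Fintype F]

theorem dimH_univ : dimH (Set.univ : Set (Torus F)) = 1 := by
  classical
  apply le_antisymm
  · set c : ℝ := (Fintype.card F : ℝ)⁻¹ with hc
    have hc0 : 0 < c := cinv_pos
    have hc1 : c < 1 := cinv_lt_one
    have key := Measure.hausdorffMeasure_le_liminf_sum (X := Torus F) (ι := fun n : ℕ => Fin n → F)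
      (1 : ℝ) Set.univ (l := atTop) (fun n => ENNReal.ofReal (c ^ (n + 1)))
      (by
        have h1 : Tendsto (fun n : ℕ => c ^ (n + 1)) atTop (𝓝 0) :=
          (tendsto_pow_atTop_nhds_zero_of_lt_one hc0.le hc1).comp (tendsto_add_atTop_nat 1)
        have := ENNReal.tendsto_ofReal h1
        rwa [ENNReal.ofReal_zero] at this)
      (fun n w => {s | (fun i : Fin n => s i) = w})
      (Eventually.of_forall fun n w => ediam_le_of_word (w := w) (fun s hs => hs))
      (Eventually.of_forall fun n s _ => Set.mem_iUnion.2 ⟨fun i : Fin n => s i, rfl⟩)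
    have bound : ∀ᶠ n : ℕ in atTop, (∑ w : Fin n → F,
        Metric.ediam {s : Torus F | (fun i : Fin n => s i) = w} ^ (1 : ℝ)) ≤ 1 := by
      refine Eventually.of_forall fun n => ?_
      have e1 : ∀ w : Fin n → F, Metric.ediam {s : Torus F | (fun i : Fin n => s i) = w} ^ (1 : ℝ)
          ≤ ENNReal.ofReal (c ^ n) := by
        intro w
        rw [ENNReal.rpow_one]
        exact (ediam_le_of_word (w := w) (fun s hs => hs)).trans
          (ENNReal.ofReal_le_ofReal (pow_le_pow_of_le_one hc0.le hc1.le (Nat.le_succ n)))
      refine (Finset.sum_le_sum (fun w _ => e1 w)).trans ?_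
      rw [Finset.sum_const, Finset.card_univ, Fintype.card_fun, Fintype.card_fin, nsmul_eq_mul,
        ← ENNReal.ofReal_natCast, ← ENNReal.ofReal_mul (Nat.cast_nonneg _)]
      have : ((Fintype.card F ^ n : ℕ) : ℝ) * c ^ n = 1 := by
        have h0 : (Fintype.card F : ℝ) ≠ 0 := by
          have := card_ge_two (F := F); positivity
        rw [hc]; push_cast
        rw [← mul_pow, mul_inv_cancel₀ h0, one_pow]
      rw [this, ENNReal.ofReal_one]
    have h5 : liminf (fun n : ℕ => ∑ w : Fin n → F,
        Metric.ediam {s : Torus F | (fun i : Fin n => s i) = w} ^ (1 : ℝ)) atTop ≤ 1 := by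
      have : liminf (fun _ : ℕ => (1 : ℝ≥0∞)) atTop = 1 := liminf_const 1
      rw [← this]
      exact liminf_le_liminf bound
    have h6 : Measure.hausdorffMeasure ((1 : ℝ≥0) : ℝ) (Set.univ : Set (Torus F)) ≠ ∞ := by
      rw [NNReal.coe_one]
      exact (lt_of_le_of_lt (key.trans h5) ENNReal.one_lt_top).ne
    simpa using dimH_le_of_hausdorffMeasure_ne_top h6
  · set q := Fintype.card F with hq
    have hq1 : 1 < q := Fintype.one_lt_card
    haveI : NeZero q := ⟨by omega⟩
    let e : F ≃ Fin q := Fintype.equivFin F
    let φ : Torus F → ℝ := fun s => Real.ofDigits (fun i => e (s i))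
    have hlip : LipschitzWith q φ := by
      apply LipschitzWith.of_dist_le_mul
      intro x y
      rw [dist_eq, NNReal.coe_natCast, Real.dist_eq]
      by_cases hxy : x = y
      · subst hxy
        rw [sub_self, abs_zero]
        exact mul_nonneg (Nat.cast_nonneg _) (tdist_nonneg _ _)
      · have h1 : ∀ i < fd x y, e (x i) = e (y i) := fun i hi => by
          rw [@PiNat.apply_eq_of_lt_firstDiff (fun _ => F) x y i hi]
        have h2 := Real.abs_ofDigits_sub_ofDigits_le (x := fun i => e (x i)) (y := fun i => e (y i)) h1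
        have h3 : tdist x y = ((q : ℝ)⁻¹) ^ (fd x y + 1) := by
          unfold tdist; rw [if_neg hxy]
        rw [h3]
        refine h2.trans (le_of_eq ?_)
        have h0 : (q : ℝ) ≠ 0 := by
          have := card_ge_two (F := F)
          rw [← hq] at this
          positivity
        rw [pow_succ, inv_pow]
        field_simp
    have hsurj : Set.Ico (0 : ℝ) 1 ⊆ φ '' Set.univ := by
      intro y hy
      refine ⟨fun i => e.symm (Real.digits y q i), Set.mem_univ _, ?_⟩
      show Real.ofDigits (fun i => e (e.symm (Real.digits y q i))) = y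
      have : (fun i => e (e.symm (Real.digits y q i))) = Real.digits y q := by
        funext i; exact e.apply_symm_apply _
      rw [this]
      exact Real.ofDigits_digits hq1 hy
    have h1 : dimH (Set.Ico (0 : ℝ) 1) = 1 := by
      have := Real.dimH_of_nonempty_interior (E := ℝ) (s := Set.Ico (0 : ℝ) 1)
        (by rw [interior_Ico]; exact Set.nonempty_Ioo.2 zero_lt_one)
      simpa using this
    calc (1 : ℝ≥0∞) = dimH (Set.Ico (0 : ℝ) 1) := h1.symm
      _ ≤ dimH (φ '' Set.univ) := dimH_mono hsurj
      _ ≤ dimH (Set.univ : Set (Torus F)) := hlip.dimH_image_le _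

end H488.FO
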