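import Pool.Agent.H488.FO.Example
import Pool.Agent.H488.FO.Univ

/-!
# The orbit of an irrational point under all polynomials is dense
-/

set_option autoImplicit false
set_option linter.unusedSectionVars false

namespace H488.FO

open Polynomial

variable {F : Type*} [Field F] [Fintype F]

lemma act_X_pow (m : ℕ) (x : ℕ → F) (i : ℕ) : act (X ^ m) x i = x (m + i) := by
  rw [act_eq, map_pow, aeval_X, sh_pow, add_comm]

lemma mem_closure_of_words {A : Set (Torus F)} {y : Torus F}
    (h : ∀ n : ℕ, ∃ s ∈ A, ∀ i < n, s i = y i) : y ∈ closure A := by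
  rw [Metric.mem_closure_iff]
  intro ε hε
  obtain ⟨n, hn⟩ := exists_pow_lt_of_lt_one hε (cinv_lt_one (F := F))
  obtain ⟨s, hs, h1⟩ := h n
  refine ⟨s, hs, ?_⟩
  rw [dist_eq]
  refine (tdist_le_of_eq (fun i hi => (h1 i hi).symm)).trans_lt ?_
  exact (pow_le_pow_of_le_one cinv_pos.le cinv_lt_one.le (Nat.le_succ n)).trans_lt hn

theorem dense_full {x : ℕ → F} (hx : ¬ IsRational x) :
    closure {s : Torus F | ∃ a : F[X], s = act a x} = Set.univ := by
  classical
  rw [Set.eq_univ_iff_forall]
  intro y
  apply mem_closure_of_words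
  intro n
  let L : F[X] →ₗ[F] (Fin n → F) :=
    { toFun := fun a i => act a x i
      map_add' := fun a b => by
        funext i
        show act (a + b) x i = act a x i + act b x i
        rw [act_eq, act_eq, act_eq, map_add]; rfl
      map_smul' := fun c a => by
        funext i
        show act (c • a) x i = c * act a x i
        rw [act_eq, act_eq, map_smul]; rfl }
  have hL : LinearMap.range L = ⊤ := by
    by_contra hne
    obtain ⟨f, hf0, hf⟩ := Submodule.exists_le_ker_of_lt_top _ (lt_top_iff_ne_top.2 hne)
    set c : Fin n → F := fun i => f (Pi.single i 1) with hc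
    have hfw : ∀ w : Fin n → F, f w = ∑ i, c i * w i := by
      intro w
      have : w = ∑ i, w i • (Pi.single i (1 : F) : Fin n → F) := by
        funext j
        rw [Finset.sum_apply]
        simp [Pi.single_apply]
      conv_lhs => rw [this]
      rw [map_sum]
      apply Finset.sum_congr rfl
      intro i _
      rw [map_smul, smul_eq_mul, mul_comm]
    set g : F[X] := ∑ i : Fin n, C (c i) * X ^ (i : ℕ) with hg
    have hgc : ∀ i : Fin n, g.coeff i = c i := by
      intro i
      rw [hg, finset_sum_coeff, Finset.sum_eq_single i]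
      · rw [coeff_C_mul, coeff_X_pow, if_pos rfl, mul_one]
      · intro j _ hj
        rw [coeff_C_mul, coeff_X_pow, if_neg (fun h => hj (Fin.ext h.symm)), mul_zero]
      · intro h; exact absurd (Finset.mem_univ _) h
    have hg0 : g ≠ 0 := by
      intro h
      apply hf0
      apply LinearMap.ext
      intro w
      rw [hfw, LinearMap.zero_apply]
      apply Finset.sum_eq_zero
      intro i _
      rw [← hgc i, h, coeff_zero, zero_mul]
    apply hx
    refine ⟨g, hg0, ?_⟩
    funext m
    have h1 : f (L (X ^ m)) = 0 := by
      have := hf (LinearMap.mem_range_self L (X ^ m))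
      exact this
    rw [hfw] at h1
    rw [Pi.zero_apply, ← h1, act_eq, hg, map_sum, LinearMap.sum_apply, Finset.sum_apply]
    apply Finset.sum_congr rfl
    intro i _
    show _ = c i * act (X ^ m) x i
    rw [act_X_pow, map_mul, aeval_C, map_pow, aeval_X, Module.End.mul_apply,
      Module.algebraMap_end_apply, Pi.smul_apply, smul_eq_mul, sh_pow]
  obtain ⟨a, ha⟩ := LinearMap.range_eq_top.1 hL (fun i : Fin n => y i)
  exact ⟨act a x, ⟨a, rfl⟩, fun i hi => congrFun ha ⟨i, hi⟩⟩

end H488.FO
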