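import Pool.Agent.H488.FO.Algebraic
import Pool.Agent.H488.FO.Dense

/-!
# Algebraic irrational points are dense
-/

set_option autoImplicit false
set_option linter.unusedSectionVars false

namespace H488.FO

open PowerSeries

variable {F : Type*} [Field F] [Fintype F]

/-- The series `∑ x i u ^ (i + 1)`, `u = 1 / t`. -/
noncomputable def series (x : ℕ → F) : F⟦X⟧ :=
  PowerSeries.mk fun n => if n = 0 then 0 else x (n - 1)

/-- The series `∑ x i t ^ (-i - 1)` is algebraic over `F[1/t]`, that is, over `F(t)`. -/
def IsAlg (x : ℕ → F) : Prop := IsAlgebraic (Polynomial F) (series x)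

lemma series_add (x y : ℕ → F) : series (x + y) = series x + series y := by
  ext n
  rw [map_add]
  unfold series
  rw [coeff_mk, coeff_mk, coeff_mk]
  split_ifs
  · rw [add_zero]
  · rfl

lemma IsAlg.automatic {x : ℕ → F} (hx : IsAlg x) : Automatic x := automatic_of_algebraic hx

lemma isAlg_of_support {x : ℕ → F} {M : ℕ} (hx : ∀ i, M ≤ i → x i = 0) : IsAlg x := by
  have h : series x = algebraMap (Polynomial F) F⟦X⟧ (trunc (M + 1) (series x)) := by
    rw [algMap_eq]
    ext n
    rw [Polynomial.coeff_coe, coeff_trunc]
    split_ifs with hn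
    · rfl
    · unfold series
      rw [coeff_mk, if_neg (by omega), hx (n - 1) (by omega)]
  unfold IsAlg
  rw [h]
  exact isAlgebraic_algebraMap _

lemma series_xpow : series (xpow F) - series (xpow F) ^ Fintype.card F = (X : F⟦X⟧) := by
  classical
  set q := Fintype.card F with hq
  have hq1 : 1 < q := Fintype.one_lt_card
  have hc : ∀ n, coeff n (series (xpow F)) = if ∃ k : ℕ, n = q ^ k then 1 else 0 := by
    intro n
    unfold series xpow
    rw [coeff_mk]
    cases n with
    | zero =>
      rw [if_pos rfl, if_neg]
      rintro ⟨k, hk⟩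
      have : 0 < q ^ k := pow_pos (by omega) k
      omega
    | succ n =>
      rw [if_neg (Nat.succ_ne_zero n), Nat.add_sub_cancel]
  ext n
  rw [map_sub, hq, coeff_pow_card, ← hq, hc, coeff_X]
  by_cases h1 : n = 1
  · subst h1
    rw [if_pos ⟨0, by simp⟩, if_neg, if_pos rfl, sub_zero]
    intro h
    have := Nat.le_of_dvd one_pos h
    omega
  · rw [if_neg h1]
    by_cases h2 : q ∣ n
    · rw [if_pos h2, hc]
      obtain ⟨m, rfl⟩ := h2
      rw [Nat.mul_div_cancel_left _ (by omega : 0 < q)]
      have : (∃ k : ℕ, q * m = q ^ k) ↔ (∃ k : ℕ, m = q ^ k) := by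
        constructor
        · rintro ⟨k, hk⟩
          cases k with
          | zero =>
            rw [pow_zero] at hk
            exact absurd hk h1
          | succ k =>
            rw [pow_succ'] at hk
            exact ⟨k, Nat.eq_of_mul_eq_mul_left (by omega) hk⟩
        · rintro ⟨k, rfl⟩
          exact ⟨k + 1, by rw [pow_succ']⟩
      simp only [this, sub_self]
    · rw [if_neg h2, sub_zero, if_neg]
      rintro ⟨k, rfl⟩
      cases k with
      | zero => exact h1 (pow_zero q)
      | succ k => exact h2 (by rw [pow_succ']; exact dvd_mul_right _ _)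

lemma isAlg_xpow : IsAlg (xpow F) := by
  set q := Fintype.card F with hq
  have hq1 : 1 < q := Fintype.one_lt_card
  refine ⟨Polynomial.X - Polynomial.X ^ q - Polynomial.C Polynomial.X, ?_, ?_⟩
  · intro h
    have h1 := congrArg (fun p => Polynomial.coeff p q) h
    simp only [Polynomial.coeff_sub, Polynomial.coeff_X, Polynomial.coeff_X_pow,
      Polynomial.coeff_C, Polynomial.coeff_zero] at h1
    rw [if_neg (by omega), if_pos trivial, if_neg (by omega)] at h1
    simp at h1
  · rw [map_sub, map_sub, map_pow, Polynomial.aeval_X, Polynomial.aeval_C, algMap_eq,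
      Polynomial.coe_X, hq, series_xpow, sub_self]

/-- Every block of digits is the beginning of an irrational algebraic series. -/
theorem exists_algebraic (y : ℕ → F) (n : ℕ) : ∃ x : ℕ → F, IsAlg x ∧ ¬ IsRational x ∧
    ∀ i < n, x i = y i := by
  classical
  let f : ℕ → F := fun i => if i < n then y i - xpow F i else 0
  have hf : ∀ i, n ≤ i → f i = 0 := fun i hi => if_neg (by omega)
  refine ⟨xpow F + f, ?_, not_rational hf, ?_⟩
  · unfold IsAlg
    rw [series_add]
    exact IsAlgebraic.add isAlg_xpow (isAlg_of_support hf)
  · intro i hi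
    show xpow F i + f i = y i
    have : f i = y i - xpow F i := if_pos hi
    rw [this]; ring

end H488.FO
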