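import Pool.Agent.H488.FO.Christol

/-!
# Algebraic series satisfy Ore relations; their digits are automatic
-/

set_option autoImplicit false
set_option linter.unusedSectionVars false

namespace H488.FO

open PowerSeries

variable {F : Type*} [Field F] [Fintype F]

lemma algMap_inj : Function.Injective (algebraMap (Polynomial F) F⟦X⟧) := by
  intro p r h
  rw [PowerSeries.algebraMap_apply', PowerSeries.algebraMap_apply'] at h
  simpa using h

lemma algMap_eq (p : Polynomial F) : algebraMap (Polynomial F) F⟦X⟧ p = (p : F⟦X⟧) := by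
  rw [PowerSeries.algebraMap_apply']
  simp

attribute [local instance] FractionRing.liftAlgebra in
lemma not_linInd {f : F⟦X⟧} (hf : IsAlgebraic (Polynomial F) f) :
    ¬ LinearIndependent (Polynomial F)
      (fun i : ℕ => algebraMap F⟦X⟧ (FractionRing F⟦X⟧) (f ^ (Fintype.card F ^ i))) := by
  haveI : FaithfulSMul (Polynomial F) F⟦X⟧ := (faithfulSMul_iff_algebraMap_injective _ _).2 algMap_inj
  intro hlin
  have h1 := (LinearIndependent.iff_fractionRing (Polynomial F) (FractionRing (Polynomial F))).1 hlin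
  set L := FractionRing F⟦X⟧
  set K := FractionRing (Polynomial F)
  have halg : IsAlgebraic (Polynomial F) (algebraMap F⟦X⟧ L f) := hf.algebraMap
  have halgK : IsAlgebraic K (algebraMap F⟦X⟧ L f) :=
    halg.extendScalars (IsFractionRing.injective (Polynomial F) K)
  have hint : IsIntegral K (algebraMap F⟦X⟧ L f) := isAlgebraic_iff_isIntegral.1 halgK
  set W := Subalgebra.toSubmodule (Algebra.adjoin K {algebraMap F⟦X⟧ L f}) with hW
  have hfg : W.FG := hint.fg_adjoin_singleton
  haveI : Module.Finite K W := Module.Finite.iff_fg.2 hfg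
  have hmem : ∀ i : ℕ, algebraMap F⟦X⟧ L (f ^ (Fintype.card F ^ i)) ∈ W := by
    intro i
    rw [map_pow]
    exact Subalgebra.pow_mem _ (Algebra.self_mem_adjoin_singleton K _) _
  have h2 : LinearIndependent K (fun i : ℕ => (⟨_, hmem i⟩ : W)) := by
    apply LinearIndependent.of_comp W.subtype
    exact h1
  have h3 : Finite ℕ := h2.finite_of_isNoetherian
  exact not_finite ℕ

theorem exists_rel {f : F⟦X⟧} (hf : IsAlgebraic (Polynomial F) f) : ∃ j m, Rel j m f := by
  classical
  obtain ⟨s, g, h1, i₀, hi₀, hgi₀⟩ := not_linearIndependent_iff.1 (not_linInd hf)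
  set q := Fintype.card F with hq
  -- the relation in the ring of power series
  let c : ℕ → F⟦X⟧ := fun i => if i ∈ s then ((g i : Polynomial F) : F⟦X⟧) else 0
  obtain ⟨M, hM⟩ : ∃ M : ℕ, ∀ i ∈ s, i < M := ⟨s.sup id + 1, fun i hi =>
    Nat.lt_succ_of_le (Finset.le_sup (f := id) hi)⟩
  have h2 : ∑ i ∈ s, ((g i : Polynomial F) : F⟦X⟧) * f ^ (q ^ i) = 0 := by
    apply IsFractionRing.injective F⟦X⟧ (FractionRing F⟦X⟧)
    rw [map_sum, map_zero, ← h1]
    apply Finset.sum_congr rfl
    intro i _
    rw [← algMap_eq, map_mul, Algebra.smul_def,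
      IsScalarTower.algebraMap_apply (Polynomial F) F⟦X⟧ (FractionRing F⟦X⟧)]
  have h3 : ∑ i ∈ Finset.range M, c i * f ^ (q ^ i) = 0 := by
    rw [← h2]
    symm
    have hsub : s ⊆ Finset.range M := fun i hi => Finset.mem_range.2 (hM i hi)
    rw [← Finset.sum_subset hsub (f := fun i => c i * f ^ (q ^ i))]
    · apply Finset.sum_congr rfl
      intro i hi
      show _ = (if i ∈ s then ((g i : Polynomial F) : F⟦X⟧) else 0) * _
      rw [if_pos hi]
    · intro i _ hi
      show (if i ∈ s then ((g i : Polynomial F) : F⟦X⟧) else 0) * _ = 0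
      rw [if_neg hi, zero_mul]
  have hex : ∃ i, c i ≠ 0 := by
    refine ⟨i₀, ?_⟩
    show (if i₀ ∈ s then ((g i₀ : Polynomial F) : F⟦X⟧) else 0) ≠ 0
    rw [if_pos hi₀]
    intro h
    apply hgi₀
    exact Polynomial.coe_eq_zero_iff.1 h
  set j := Nat.find hex with hj
  have hj1 : c j ≠ 0 := Nat.find_spec hex
  have hj2 : ∀ i < j, c i = 0 := fun i hi => by
    have := Nat.find_min hex hi
    push Not at this
    exact this
  have hjM : j < M := by
    by_contra hcon
    apply hj1
    show (if j ∈ s then _ else 0) = 0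
    rw [if_neg]
    intro hjs
    exact hcon (hM j hjs)
  obtain ⟨m, hm⟩ : ∃ m, M = j + (m + 1) := ⟨M - j - 1, by omega⟩
  have hbound : ∃ N : ℕ, ∀ i, Dg N (c i) := by
    refine ⟨s.sup fun i => (g i : Polynomial F).natDegree, fun i => ?_⟩
    show Dg _ (if i ∈ s then ((g i : Polynomial F) : F⟦X⟧) else 0)
    split_ifs with hi
    · exact (Dg.poly _).mono (Finset.le_sup (f := fun i => (g i : Polynomial F).natDegree) hi)
    · exact Dg.zero
  obtain ⟨N, hN⟩ := hbound
  refine ⟨j, m, N, fun i => c (j + i), fun i => hN _, ?_, ?_⟩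
  · simpa using hj1
  · rw [hm, Finset.sum_range_add, Finset.sum_eq_zero (s := Finset.range j)
      (fun i hi => by rw [hj2 i (Finset.mem_range.1 hi), zero_mul]), zero_add,
      Finset.sum_range] at h3
    exact h3

/-- **The digits of an algebraic series are automatic** (one half of Christol's theorem). -/
theorem automatic_of_algebraic {x : ℕ → F}
    (hx : IsAlgebraic (Polynomial F) (PowerSeries.mk fun n => if n = 0 then 0 else x (n - 1))) :
    Automatic x := by
  classical
  obtain ⟨j, m, hrel⟩ := exists_rel hx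
  obtain ⟨H, hfin, hf, hcl⟩ := exists_finite_closed (rel_succ (rel_zero j hrel))
  set q := Fintype.card F with hq
  have hq0 : 0 < q := Fintype.card_pos
  refine ⟨(fun h : F⟦X⟧ => fun i => coeff i h) '' H ∪ (fun h : F⟦X⟧ => fun i => coeff (i + 1) h) '' H,
    (hfin.image _).union (hfin.image _), ?_, ?_⟩
  · right
    refine ⟨_, hf, ?_⟩
    funext i
    show coeff (i + 1) _ = x i
    rw [coeff_mk, if_neg (Nat.succ_ne_zero i), Nat.add_sub_cancel]
  · rintro v (⟨h, hh, rfl⟩ | ⟨h, hh, rfl⟩) ρ hρ
    · left
      refine ⟨cart ρ h, hcl h hh ρ hρ, ?_⟩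
      funext i
      show coeff i (cart ρ h) = coeff (Fintype.card F * i + ρ) h
      rw [coeff_cart]
    · by_cases hρ1 : ρ + 1 < q
      · left
        refine ⟨cart (ρ + 1) h, hcl h hh _ hρ1, ?_⟩
        funext i
        show coeff i (cart (ρ + 1) h) = coeff (Fintype.card F * i + ρ + 1) h
        rw [coeff_cart]
        rfl
      · right
        refine ⟨cart 0 h, hcl h hh 0 hq0, ?_⟩
        funext i
        show coeff (i + 1) (cart 0 h) = coeff (Fintype.card F * i + ρ + 1) h
        rw [coeff_cart, ← hq]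
        have : q * (i + 1) + 0 = q * i + ρ + 1 := by
          rw [Nat.mul_add, ← hq] at *
          omega
        rw [this]

end H488.FO
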