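import Pool.Agent.H488.FO.Action

/-!
# The Cartier operators on power series over a finite field
-/

set_option autoImplicit false
set_option linter.unusedSectionVars false

namespace H488.FO

open PowerSeries

variable {F : Type*} [Field F] [Fintype F]

lemma coeff_pow_card (a : F⟦X⟧) (m : ℕ) : coeff m (a ^ Fintype.card F)
    = if Fintype.card F ∣ m then coeff (m / Fintype.card F) a else 0 := by
  have hq : 0 < Fintype.card F := Fintype.card_pos
  have h1 : coeff m (a ^ Fintype.card F) = (trunc (m + 1) (a ^ Fintype.card F)).coeff m := by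
    rw [coeff_trunc, if_pos (Nat.lt_succ_self m)]
  rw [h1, ← trunc_trunc_pow, coeff_trunc, if_pos (Nat.lt_succ_self m), ← Polynomial.coe_pow,
    Polynomial.coeff_coe, ← FiniteField.expand_card, Polynomial.coeff_expand hq]
  split_ifs with h
  · rw [coeff_trunc, if_pos (Nat.lt_succ_of_le (Nat.div_le_self _ _))]
  · rfl

/-- the Cartier operator: the coefficients at the places `≡ r` modulo `q` -/
noncomputable def cart (r : ℕ) (h : F⟦X⟧) : F⟦X⟧ :=
  PowerSeries.mk fun i => coeff (Fintype.card F * i + r) h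

lemma coeff_cart (r : ℕ) (h : F⟦X⟧) (i : ℕ) :
    coeff i (cart r h) = coeff (Fintype.card F * i + r) h := by
  unfold cart; rw [coeff_mk]

lemma cart_add (r : ℕ) (h g : F⟦X⟧) : cart r (h + g) = cart r h + cart r g := by
  ext i; rw [map_add, coeff_cart, coeff_cart, coeff_cart, map_add]

lemma cart_zero (r : ℕ) : cart r (0 : F⟦X⟧) = 0 := by
  ext i; rw [coeff_cart, map_zero, map_zero]

lemma cart_sum {ι : Type*} (r : ℕ) (s : Finset ι) (h : ι → F⟦X⟧) :
    cart r (∑ i ∈ s, h i) = ∑ i ∈ s, cart r (h i) := by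
  classical
  induction s using Finset.induction_on with
  | empty => rw [Finset.sum_empty, Finset.sum_empty, cart_zero]
  | insert a s ha ih => rw [Finset.sum_insert ha, Finset.sum_insert ha, cart_add, ih]

lemma cart_pow_mul {r : ℕ} (hr : r < Fintype.card F) (a b : F⟦X⟧) :
    cart r (a ^ Fintype.card F * b) = a * cart r b := by
  classical
  set q := Fintype.card F with hq
  have hq0 : 0 < q := Fintype.card_pos
  ext i
  rw [coeff_cart, ← hq, coeff_mul, coeff_mul, Finset.Nat.sum_antidiagonal_eq_sum_range_succ_mk,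
    Finset.Nat.sum_antidiagonal_eq_sum_range_succ_mk]
  symm
  apply Finset.sum_bij_ne_zero (fun j _ _ => q * j)
  · intro j hj _
    rw [Finset.mem_range] at hj ⊢
    have : q * j ≤ q * i := Nat.mul_le_mul_left _ (by omega)
    omega
  · intro j _ _ j' _ _ h
    exact Nat.eq_of_mul_eq_mul_left hq0 h
  · intro m hm hne
    rw [Finset.mem_range] at hm
    simp only at hne
    have h1 : q ∣ m := by
      by_contra hcon
      apply hne
      rw [coeff_pow_card, if_neg hcon, zero_mul]
    obtain ⟨j, rfl⟩ := h1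
    have hj : j < i + 1 := by
      by_contra hcon
      push Not at hcon
      have : q * (i + 1) ≤ q * j := Nat.mul_le_mul_left _ hcon
      rw [Nat.mul_add] at this
      omega
    refine ⟨j, Finset.mem_range.2 hj, ?_, rfl⟩
    intro h0
    apply hne
    simp only at h0
    rw [coeff_pow_card, if_pos (dvd_mul_right _ _), ← hq, Nat.mul_div_cancel_left _ hq0]
    rw [coeff_cart, ← hq] at h0
    have : q * i + r - q * j = q * (i - j) + r := by
      rw [Nat.mul_sub]
      have : q * j ≤ q * i := Nat.mul_le_mul_left _ (by omega)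
      omega
    rw [this]
    exact h0
  · intro j hj _
    rw [Finset.mem_range] at hj
    simp only
    have e : q * i + r - q * j = q * (i - j) + r := by
      rw [Nat.mul_sub]
      have : q * j ≤ q * i := Nat.mul_le_mul_left _ (by omega)
      omega
    rw [coeff_pow_card, if_pos (dvd_mul_right _ _), ← hq, Nat.mul_div_cancel_left _ hq0,
      coeff_cart, ← hq, e]

/-- the coefficients vanish beyond `N` -/
def Dg (N : ℕ) (c : F⟦X⟧) : Prop := ∀ i, N < i → coeff i c = 0

lemma Dg.mono {N M : ℕ} {c : F⟦X⟧} (h : Dg N c) (hNM : N ≤ M) : Dg M c :=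
  fun i hi => h i (by omega)

lemma Dg.add {N : ℕ} {c d : F⟦X⟧} (h : Dg N c) (h' : Dg N d) : Dg N (c + d) := by
  intro i hi; rw [map_add, h i hi, h' i hi, add_zero]

lemma Dg.sub {N : ℕ} {c d : F⟦X⟧} (h : Dg N c) (h' : Dg N d) : Dg N (c - d) := by
  intro i hi; rw [map_sub, h i hi, h' i hi, sub_zero]

lemma Dg.mul {N M : ℕ} {c d : F⟦X⟧} (h : Dg N c) (h' : Dg M d) : Dg (N + M) (c * d) := by
  intro i hi
  rw [coeff_mul]
  apply Finset.sum_eq_zero
  rintro ⟨j, l⟩ hjl
  have hjl : j + l = i := Finset.HasAntidiagonal.mem_antidiagonal.1 hjl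
  show coeff j c * coeff l d = 0
  by_cases hj : N < j
  · rw [h j hj, zero_mul]
  · rw [h' l (by omega), mul_zero]

lemma Dg.zero {N : ℕ} : Dg N (0 : F⟦X⟧) := fun i _ => by rw [map_zero]

lemma Dg.poly (p : Polynomial F) : Dg p.natDegree (p : F⟦X⟧) := fun i hi => by
  rw [Polynomial.coeff_coe]; exact Polynomial.coeff_eq_zero_of_natDegree_lt hi

lemma Dg.one : Dg 0 (1 : F⟦X⟧) := fun i hi => by
  rw [coeff_one, if_neg (by omega)]

lemma Dg.pow {N : ℕ} {c : F⟦X⟧} (h : Dg N c) (k : ℕ) : Dg (k * N) (c ^ k) := by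
  induction k with
  | zero => rw [pow_zero, zero_mul]; exact Dg.one
  | succ k ih => rw [pow_succ, Nat.succ_mul]; exact ih.mul h

lemma Dg.cart {N r : ℕ} {c : F⟦X⟧} (h : Dg (2 * N) c) : Dg N (cart r c) := by
  intro i hi
  rw [coeff_cart]
  apply h
  have hq : 2 ≤ Fintype.card F := Fintype.one_lt_card
  have : 2 * i ≤ Fintype.card F * i := Nat.mul_le_mul_right _ hq
  omega

lemma finite_Dg (N : ℕ) : {c : F⟦X⟧ | Dg N c}.Finite := by
  have : Set.InjOn (fun (c : F⟦X⟧) (i : Fin (N + 1)) => coeff (i : ℕ) c) {c : F⟦X⟧ | Dg N c} := by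
    intro c hc d hd h
    ext i
    rcases Nat.lt_or_ge i (N + 1) with hi | hi
    · exact congrFun h ⟨i, hi⟩
    · rw [hc i (by omega), hd i (by omega)]
  exact Set.Finite.of_finite_image (Set.toFinite _) this

end H488.FO
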