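import Pool.Agent.H488.FO.Cartier

/-!
# The digits of an algebraic series are automatic
-/

set_option autoImplicit false
set_option linter.unusedSectionVars false

namespace H488.FO

open PowerSeries

variable {F : Type*} [Field F] [Fintype F]

/-- `f` satisfies a relation `∑ A i f ^ (q ^ (j + i)) = 0` with polynomials `A i`, `A 0 ≠ 0`. -/
def Rel (j m : ℕ) (f : F⟦X⟧) : Prop :=
  ∃ (N : ℕ) (A : Fin (m + 1) → F⟦X⟧), (∀ i, Dg N (A i)) ∧ A 0 ≠ 0 ∧
    ∑ i, A i * f ^ (Fintype.card F ^ (j + (i : ℕ))) = 0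

lemma rel_down {j m : ℕ} {f : F⟦X⟧} (h : Rel (j + 1) m f) : Rel j m f := by
  obtain ⟨N, A, h1, h2, h3⟩ := h
  set q := Fintype.card F with hq
  have hq0 : 0 < q := Fintype.card_pos
  obtain ⟨e, he⟩ : ∃ e, coeff e (A 0) ≠ 0 := by
    by_contra hcon
    push Not at hcon
    apply h2
    ext e
    rw [hcon e, map_zero]
  have hr : e % q < Fintype.card F := Nat.mod_lt _ hq0
  refine ⟨N, fun i => cart (e % q) (A i), fun i => Dg.cart ((h1 i).mono (by omega)), ?_, ?_⟩
  · intro h0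
    apply he
    have := congrArg (coeff (e / q)) h0
    rw [coeff_cart, map_zero, ← hq, Nat.div_add_mod] at this
    exact this
  · have h4 := congrArg (cart (e % q)) h3
    rw [cart_zero, cart_sum] at h4
    rw [← h4]
    apply Finset.sum_congr rfl
    intro i _
    have e1 : f ^ (q ^ (j + 1 + (i : ℕ))) = (f ^ (q ^ (j + (i : ℕ)))) ^ Fintype.card F := by
      rw [← pow_mul, ← hq, ← pow_succ]
      congr 2
      omega
    rw [e1, mul_comm (A i), cart_pow_mul hr, mul_comm]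

lemma rel_zero {m : ℕ} {f : F⟦X⟧} : ∀ j : ℕ, Rel j m f → Rel 0 m f
  | 0, h => h
  | j + 1, h => rel_zero j (rel_down h)

lemma rel_succ {j m : ℕ} {f : F⟦X⟧} (h : Rel j m f) : Rel j (m + 1) f := by
  obtain ⟨N, A, h1, h2, h3⟩ := h
  refine ⟨N, Fin.snoc A 0, ?_, ?_, ?_⟩
  · intro i
    refine Fin.lastCases ?_ (fun i => ?_) i
    · rw [Fin.snoc_last]; exact Dg.zero
    · rw [Fin.snoc_castSucc]; exact h1 i
  · have : (0 : Fin (m + 1 + 1)) = Fin.castSucc 0 := rfl
    rw [this, Fin.snoc_castSucc]; exact h2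
  · rw [Fin.sum_univ_castSucc, Fin.snoc_last, zero_mul, add_zero, ← h3]
    apply Finset.sum_congr rfl
    intro i _
    rw [Fin.snoc_castSucc]
    rfl

/-- a finite set which contains `f` and is closed under the Cartier operators -/
theorem exists_finite_closed {n : ℕ} {f : F⟦X⟧} (h : Rel 0 (n + 1) f) :
    ∃ H : Set F⟦X⟧, H.Finite ∧ f ∈ H ∧ ∀ g ∈ H, ∀ r < Fintype.card F, cart r g ∈ H := by
  classical
  obtain ⟨N, A, h1, h2, h3⟩ := h
  set q := Fintype.card F with hq
  have hq2 : 2 ≤ q := Fintype.one_lt_card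
  have hq0 : 0 < q := by omega
  set a := A 0 with ha
  set N' := q ^ (n + 1) * N with hN'
  have hqn : 0 < q ^ (n + 1) := pow_pos hq0 _
  have hNN' : N ≤ N' := Nat.le_mul_of_pos_left _ hqn
  -- the relation
  have hrel : a * f = -∑ j : Fin (n + 1), A j.succ * f ^ (q ^ (j.1 + 1)) := by
    rw [Fin.sum_univ_succ] at h3
    simp only [Fin.val_zero, add_zero, pow_zero, pow_one, zero_add, Fin.val_succ] at h3
    rw [eq_neg_iff_add_eq_zero]
    exact h3
  let V : (Fin (n + 2) → F⟦X⟧) → F⟦X⟧ := fun c =>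
    ∑ i : Fin (n + 2), c i * (a ^ (q ^ (n + 1) - q ^ (i : ℕ)) * f ^ (q ^ (i : ℕ)))
  let H : Set F⟦X⟧ := {g | ∃ c : Fin (n + 2) → F⟦X⟧, (∀ i, Dg N' (c i)) ∧ a ^ (q ^ (n + 1)) * g = V c}
  refine ⟨H, ?_, ?_, ?_⟩
  · have hC : {c : Fin (n + 2) → F⟦X⟧ | ∀ i, Dg N' (c i)}.Finite := by
      have := Set.Finite.pi (fun _ : Fin (n + 2) => finite_Dg (F := F) N')
      refine this.subset ?_
      intro c hc i _
      exact hc i
    have hsub : H ⊆ ⋃ c ∈ {c : Fin (n + 2) → F⟦X⟧ | ∀ i, Dg N' (c i)},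
        {g | a ^ (q ^ (n + 1)) * g = V c} := by
      rintro g ⟨c, hc, hg⟩
      exact Set.mem_biUnion hc hg
    refine (hC.biUnion fun c _ => ?_).subset hsub
    apply Set.Subsingleton.finite
    intro g hg g' hg'
    exact mul_left_cancel₀ (pow_ne_zero _ h2) ((hg : _ = _).trans (hg' : _ = _).symm)
  · refine ⟨Fin.cons a (fun _ => 0), ?_, ?_⟩
    · intro i
      refine Fin.cases ?_ (fun i => ?_) i
      · rw [Fin.cons_zero]; exact (h1 0).mono hNN'
      · rw [Fin.cons_succ]; exact Dg.zero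
    · show _ = ∑ i : Fin (n + 2), _
      rw [Fin.sum_univ_succ]
      simp only [Fin.cons_zero, Fin.cons_succ, zero_mul, Finset.sum_const_zero, add_zero,
        Fin.val_zero, pow_zero, pow_one]
      have : q ^ (n + 1) = (q ^ (n + 1) - 1) + 1 := by omega
      rw [← mul_assoc, ← pow_succ', ← this]
  · rintro g ⟨c, hc, hg⟩ r hr
    set D : Fin (n + 1) → F⟦X⟧ := fun j => c j.succ - c 0 * (A j.succ * a ^ (q ^ (j.1 + 1) - 2))
      with hD
    have hDdeg : ∀ j, Dg (2 * N') (D j) := by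
      intro j
      have hj : q ^ (j.1 + 1) ≤ q ^ (n + 1) := Nat.pow_le_pow_right hq0 (by omega)
      have hj2 : 2 ≤ q ^ (j.1 + 1) := by
        calc 2 ≤ q := hq2
          _ = q ^ 1 := (pow_one q).symm
          _ ≤ q ^ (j.1 + 1) := Nat.pow_le_pow_right hq0 (by omega)
      apply Dg.sub
      · exact (hc j.succ).mono (by omega)
      · refine ((hc 0).mul ((h1 j.succ).mul ((h1 0).pow (q ^ (j.1 + 1) - 2)))).mono ?_
        have : (q ^ (j.1 + 1) - 2) * N + N ≤ q ^ (n + 1) * N := by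
          rw [← Nat.succ_mul]
          exact Nat.mul_le_mul_right _ (by omega)
        omega
    have key : a ^ (q ^ (n + 1)) * g
        = ∑ j : Fin (n + 1), (a ^ (q ^ n - q ^ j.1) * f ^ (q ^ j.1)) ^ Fintype.card F * D j := by
      rw [hg]
      show ∑ i : Fin (n + 2), _ = _
      rw [Fin.sum_univ_succ]
      simp only [Fin.val_zero, pow_zero, pow_one, Fin.val_succ]
      have e1 : c 0 * (a ^ (q ^ (n + 1) - 1) * f) = -∑ j : Fin (n + 1),
          c 0 * (a ^ (q ^ (n + 1) - 2) * (A j.succ * f ^ (q ^ (j.1 + 1)))) := by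
        have hle : 2 ≤ q ^ (n + 1) := by
          calc 2 ≤ q := hq2
            _ = q ^ 1 := (pow_one q).symm
            _ ≤ q ^ (n + 1) := Nat.pow_le_pow_right hq0 (by omega)
        have : q ^ (n + 1) - 1 = (q ^ (n + 1) - 2) + 1 := by omega
        rw [this, pow_succ, mul_assoc (a ^ _) a f, hrel, mul_neg, mul_neg, Finset.mul_sum,
          Finset.mul_sum]
      rw [e1, ← Finset.sum_neg_distrib, ← Finset.sum_add_distrib]
      apply Finset.sum_congr rfl
      intro j _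
      have hj : q ^ (j.1 + 1) ≤ q ^ (n + 1) := Nat.pow_le_pow_right hq0 (by omega)
      have hj2 : 2 ≤ q ^ (j.1 + 1) := by
        calc 2 ≤ q := hq2
          _ = q ^ 1 := (pow_one q).symm
          _ ≤ q ^ (j.1 + 1) := Nat.pow_le_pow_right hq0 (by omega)
      have e2 : (a ^ (q ^ n - q ^ j.1) * f ^ (q ^ j.1)) ^ Fintype.card F
          = a ^ (q ^ (n + 1) - q ^ (j.1 + 1)) * f ^ (q ^ (j.1 + 1)) := by
        rw [mul_pow, ← pow_mul, ← pow_mul, ← hq, Nat.sub_mul, ← pow_succ, ← pow_succ]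
      have e3 : a ^ (q ^ (n + 1) - 2)
          = a ^ (q ^ (n + 1) - q ^ (j.1 + 1)) * a ^ (q ^ (j.1 + 1) - 2) := by
        rw [← pow_add]; congr 1; omega
      rw [e2, e3, hD]
      ring
    have hqn' : a ^ (q ^ (n + 1)) = (a ^ (q ^ n)) ^ Fintype.card F := by
      rw [← pow_mul, ← hq, ← pow_succ]
    have key2 : a ^ (q ^ n) * cart r g
        = ∑ j : Fin (n + 1), (a ^ (q ^ n - q ^ j.1) * f ^ (q ^ j.1)) * cart r (D j) := by
      rw [← cart_pow_mul hr, ← hqn', key, cart_sum]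
      apply Finset.sum_congr rfl
      intro j _
      rw [cart_pow_mul hr]
    refine ⟨Fin.snoc (fun j : Fin (n + 1) => cart r (D j)) 0, ?_, ?_⟩
    · intro i
      refine Fin.lastCases ?_ (fun i => ?_) i
      · rw [Fin.snoc_last]; exact Dg.zero
      · rw [Fin.snoc_castSucc]; exact (hDdeg i).cart
    · show _ = ∑ i : Fin (n + 2), _
      rw [Fin.sum_univ_castSucc, Fin.snoc_last, zero_mul, add_zero]
      have hsplit : q ^ (n + 1) = (q ^ (n + 1) - q ^ n) + q ^ n := by
        have : q ^ n ≤ q ^ (n + 1) := Nat.pow_le_pow_right hq0 (by omega)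
        omega
      rw [hsplit, pow_add, mul_assoc, key2, Finset.mul_sum, ← hsplit]
      apply Finset.sum_congr rfl
      intro j _
      rw [Fin.snoc_castSucc]
      have hj : q ^ j.1 ≤ q ^ n := Nat.pow_le_pow_right hq0 (by omega)
      have hn1 : q ^ n ≤ q ^ (n + 1) := Nat.pow_le_pow_right hq0 (by omega)
      have e4 : a ^ (q ^ (n + 1) - q ^ (j.castSucc : ℕ))
          = a ^ (q ^ (n + 1) - q ^ n) * a ^ (q ^ n - q ^ j.1) := by
        rw [← pow_add]; congr 1
        show q ^ (n + 1) - q ^ j.1 = _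
        omega
      rw [e4]
      show _ = cart r (D j) * (_ * f ^ (q ^ j.1))
      ring

end H488.FO
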