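import Pool.Agent.H488.FO.Action

/-!
# Automatic irrational points are dense
-/

set_option autoImplicit false
set_option linter.unusedSectionVars false

namespace H488.FO

open Polynomial

variable {F : Type*} [Field F] [Fintype F]

/-- `x` belongs to `F(t)` modulo `F[t]`: it is killed by a nonzero polynomial. -/
def IsRational (x : ℕ → F) : Prop := ∃ a : F[X], a ≠ 0 ∧ act a x = 0

lemma Automatic.add {x y : ℕ → F} (hx : Automatic x) (hy : Automatic y) : Automatic (x + y) := by
  obtain ⟨S, h1, h2, h3⟩ := hx
  obtain ⟨T, g1, g2, g3⟩ := hy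
  refine ⟨Set.image2 (· + ·) S T, h1.image2 _ g1, ⟨x, h2, y, g2, rfl⟩, ?_⟩
  rintro _ ⟨u, hu, v, hv, rfl⟩ ρ hρ
  exact ⟨_, h3 u hu ρ hρ, _, g3 v hv ρ hρ, rfl⟩

lemma automatic_of_support {x : ℕ → F} {M : ℕ} (hx : ∀ i, M ≤ i → x i = 0) : Automatic x := by
  classical
  refine ⟨{v | ∀ i, M ≤ i → v i = 0}, ?_, hx, ?_⟩
  · have : Set.InjOn (fun (v : ℕ → F) (i : Fin M) => v i) {v | ∀ i, M ≤ i → v i = 0} := by
      intro u hu v hv huv
      funext i
      rcases Nat.lt_or_ge i M with h | h
      · exact congrFun huv ⟨i, h⟩
      · rw [hu i h, hv i h]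
    exact Set.Finite.of_finite_image (Set.toFinite _) this
  · intro v hv ρ _ i hi
    apply hv
    have hq : 1 ≤ Fintype.card F := Fintype.card_pos
    nlinarith

/-- The digits of `∑ t ^ (-q ^ k)`. -/
noncomputable def xpow (F : Type*) [Field F] [Fintype F] : ℕ → F :=
  open Classical in fun i => if ∃ k : ℕ, i + 1 = Fintype.card F ^ k then 1 else 0

lemma xpow_automatic : Automatic (xpow F) := by
  classical
  set q := Fintype.card F with hq
  have hq1 : 1 < q := Fintype.one_lt_card
  have he : Automatic (F := F) (fun i => if i = 0 then (1 : F) else 0) :=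
    automatic_of_support (M := 1) (fun i hi => if_neg (by omega))
  obtain ⟨S, h1, h2, h3⟩ := he
  have hz : Automatic (F := F) (fun _ => (0 : F)) := automatic_of_support (M := 0) (fun _ _ => rfl)
  obtain ⟨T, g1, g2, g3⟩ := hz
  refine ⟨insert (xpow F) (S ∪ T), (h1.union g1).insert _, Set.mem_insert _ _, ?_⟩
  rintro v (rfl | hv | hv) ρ hρ
  · rw [← hq] at hρ
    by_cases hρ1 : ρ + 1 = q
    · left
      funext i
      unfold xpow
      have : (∃ k : ℕ, q * i + ρ + 1 = q ^ k) ↔ (∃ k : ℕ, i + 1 = q ^ k) := by
        have e : q * i + ρ + 1 = q * (i + 1) := by rw [Nat.mul_add, ← hρ1]; ring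
        rw [e]
        constructor
        · rintro ⟨k, hk⟩
          cases k with
          | zero =>
            rw [pow_zero] at hk
            have := Nat.le_of_dvd one_pos (Dvd.intro _ hk)
            omega
          | succ k =>
            rw [pow_succ'] at hk
            exact ⟨k, Nat.eq_of_mul_eq_mul_left (by omega) hk⟩
        · rintro ⟨k, hk⟩
          exact ⟨k + 1, by rw [pow_succ', hk]⟩
      simp only [← hq, this]
    · right
      have key : ∀ i, (∃ k : ℕ, q * i + ρ + 1 = q ^ k) ↔ (i = 0 ∧ ρ = 0) := by
        intro i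
        constructor
        · rintro ⟨k, hk⟩
          cases k with
          | zero =>
            rw [pow_zero] at hk
            have h5 : q * i + ρ = 0 := by omega
            have h6 : q * i = 0 := by omega
            rcases Nat.mul_eq_zero.1 h6 with h7 | h7
            · omega
            · exact ⟨h7, by omega⟩
          | succ k =>
            exfalso
            have h5 : q ∣ q * i + (ρ + 1) := by
              rw [← add_assoc, hk, pow_succ']
              exact dvd_mul_right _ _
            have h6 : q ∣ ρ + 1 := (Nat.dvd_add_right (dvd_mul_right q i)).1 h5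
            have h7 := Nat.le_of_dvd (by omega) h6
            omega
        · rintro ⟨rfl, rfl⟩
          exact ⟨0, by simp⟩
      by_cases hρ0 : ρ = 0
      · left
        have : (fun i => xpow F (q * i + ρ)) = fun i => if i = 0 then (1 : F) else 0 := by
          funext i
          have hk : (∃ k : ℕ, q * i + ρ + 1 = q ^ k) ↔ i = 0 :=
            (key i).trans ⟨fun h => h.1, fun h => ⟨h, hρ0⟩⟩
          unfold xpow
          simp only [← hq, hk]
        rw [this]; exact h2
      · right
        have : (fun i => xpow F (q * i + ρ)) = fun _ => (0 : F) := by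
          funext i
          have hk : ¬ (∃ k : ℕ, q * i + ρ + 1 = q ^ k) := fun h => hρ0 ((key i).1 h).2
          unfold xpow
          rw [← hq, if_neg hk]
        rw [this]; exact g2
  · exact Or.inr (Or.inl (h3 v hv ρ hρ))
  · exact Or.inr (Or.inr (g3 v hv ρ hρ))

/-- `∑ t ^ (-q ^ k)` plus a polynomial in `1 / t` is irrational. -/
lemma not_rational {f : ℕ → F} {M : ℕ} (hf : ∀ i, M ≤ i → f i = 0) :
    ¬ IsRational (xpow F + f) := by
  classical
  rintro ⟨a, ha, h⟩
  set q := Fintype.card F with hq
  have hq1 : 1 < q := Fintype.one_lt_card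
  set D := a.natDegree with hD
  -- a large gap
  obtain ⟨k, hk⟩ : ∃ k : ℕ, M + D + 1 < q ^ k := ⟨M + D + 1, Nat.lt_pow_self hq1⟩
  have hk2 : 2 * q ^ k ≤ q ^ (k + 1) := by
    rw [pow_succ']; exact Nat.mul_le_mul_right _ hq1
  set m := q ^ (k + 1) - 1 - D with hm
  have hmD : m + D + 1 = q ^ (k + 1) := by omega
  have hmM : M ≤ m := by omega
  have h1 := congrFun h m
  rw [act_add, Pi.add_apply] at h1
  have h2 : act a f m = 0 := by
    unfold act
    apply Finset.sum_eq_zero
    intro j _
    rw [hf (m + j) (by omega), mul_zero]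
  have h3 : act a (xpow F) m = a.coeff D := by
    unfold act
    rw [Finset.sum_eq_single D]
    · have : xpow F (m + D) = 1 := by
        unfold xpow
        rw [if_pos ⟨k + 1, by rw [← hq, hmD]⟩]
      rw [this, mul_one]
    · intro j hj hjD
      rw [Finset.mem_range] at hj
      have hj' : j < D := by omega
      have : xpow F (m + j) = 0 := by
        unfold xpow
        rw [if_neg]
        rintro ⟨l, hl⟩
        rw [← hq] at hl
        have h5 : q ^ l < q ^ (k + 1) := by omega
        have h6 : q ^ k < q ^ l := by omega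
        have h7 := (Nat.pow_lt_pow_iff_right hq1).1 h5
        have h8 := (Nat.pow_lt_pow_iff_right hq1).1 h6
        omega
      rw [this, mul_zero]
    · intro hn
      exact absurd (Finset.mem_range.2 (Nat.lt_succ_self _)) hn
  rw [h2, h3, add_zero, Pi.zero_apply] at h1
  exact ha (leadingCoeff_eq_zero.1 h1)

/-- Every block of digits is the beginning of an irrational automatic sequence. -/
theorem exists_automatic (y : ℕ → F) (n : ℕ) : ∃ x : ℕ → F, Automatic x ∧ ¬ IsRational x ∧
    ∀ i < n, x i = y i := by
  classical
  let f : ℕ → F := fun i => if i < n then y i - xpow F i else 0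
  have hf : ∀ i, n ≤ i → f i = 0 := fun i hi => if_neg (by omega)
  refine ⟨xpow F + f, xpow_automatic.add (automatic_of_support hf), not_rational hf, ?_⟩
  intro i hi
  show xpow F i + f i = y i
  have : f i = y i - xpow F i := if_pos hi
  rw [this]; ring

end H488.FO
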