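import Mathlib

/-!
# The torus `F((1/t)) / F[t]`, its metric, and sets with few words
-/

set_option autoImplicit false
set_option linter.unusedSectionVars false

namespace H488.FO

open Filter Topology MeasureTheory
open scoped ENNReal NNReal

variable {F : Type*} [Field F] [Fintype F]

/-- The torus `F((1/t)) / F[t]`: the sequence `s` stands for the class of `∑ s i t ^ (-i - 1)`. -/
def Torus (F : Type*) : Type _ := ℕ → F

/-- the first index where two sequences differ -/
noncomputable def fd (x y : Torus F) : ℕ := @PiNat.firstDiff (fun _ => F) x y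

/-- The distance: `q ^ (-n - 1)` if `n` is the first index where the sequences differ. -/
noncomputable def tdist (x y : Torus F) : ℝ :=
  open Classical in if x = y then 0 else ((Fintype.card F : ℝ)⁻¹) ^ (fd x y + 1)

lemma card_ge_two : (2 : ℝ) ≤ Fintype.card F := by
  have : 1 < Fintype.card F := Fintype.one_lt_card
  exact_mod_cast this

lemma cinv_pos : (0 : ℝ) < (Fintype.card F : ℝ)⁻¹ := by
  have := card_ge_two (F := F)
  positivity

lemma cinv_lt_one : (Fintype.card F : ℝ)⁻¹ < 1 :=
  inv_lt_one_of_one_lt₀ (lt_of_lt_of_le one_lt_two card_ge_two)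

lemma tdist_nonneg (x y : Torus F) : 0 ≤ tdist x y := by
  unfold tdist
  split_ifs
  · exact le_rfl
  · exact (pow_pos cinv_pos _).le

lemma tdist_le_of_eq {x y : Torus F} {n : ℕ} (h : ∀ i < n, x i = y i) :
    tdist x y ≤ ((Fintype.card F : ℝ)⁻¹) ^ (n + 1) := by
  unfold tdist
  split_ifs with hxy
  · exact (pow_pos cinv_pos _).le
  · apply pow_le_pow_of_le_one cinv_pos.le cinv_lt_one.le
    apply Nat.succ_le_succ
    by_contra hlt
    push Not at hlt
    exact @PiNat.apply_firstDiff_ne (fun _ => F) x y hxy (h _ hlt)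

lemma eq_of_tdist_lt {x y : Torus F} {n : ℕ} (h : tdist x y < ((Fintype.card F : ℝ)⁻¹) ^ n)
    {i : ℕ} (hi : i < n) : x i = y i := by
  unfold tdist at h
  split_ifs at h with hxy
  · rw [hxy]
  · have h1 : n < fd x y + 1 := by
      by_contra hcon
      push Not at hcon
      exact absurd h (not_lt.2 (pow_le_pow_of_le_one cinv_pos.le cinv_lt_one.le hcon))
    exact @PiNat.apply_eq_of_lt_firstDiff (fun _ => F) x y i (lt_of_lt_of_le hi (Nat.lt_succ_iff.1 h1))

noncomputable instance : MetricSpace (Torus F) where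
  dist := tdist
  dist_self x := by show tdist x x = 0; unfold tdist; simp
  dist_comm x y := by
    show tdist x y = tdist y x
    unfold tdist fd
    rw [@PiNat.firstDiff_comm (fun _ => F) x y]
    by_cases h : x = y
    · simp [h]
    · simp [h, Ne.symm h]
  dist_triangle x y z := by
    show tdist x z ≤ tdist x y + tdist y z
    by_cases hxz : x = z
    · subst hxz
      have h0 : tdist x x = 0 := by unfold tdist; simp
      rw [h0]
      exact add_nonneg (tdist_nonneg _ _) (tdist_nonneg _ _)
    by_cases hxy : x = y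
    · subst hxy
      have h0 : tdist x x = 0 := by unfold tdist; simp
      rw [h0, zero_add]
    by_cases hyz : y = z
    · subst hyz
      have h0 : tdist y y = 0 := by unfold tdist; simp
      rw [h0, add_zero]
    have h := @PiNat.min_firstDiff_le (fun _ => F) x y z hxz
    have hx : tdist x z = ((Fintype.card F : ℝ)⁻¹) ^ (fd x z + 1) := by
      unfold tdist; rw [if_neg hxz]
    have hy : tdist x y = ((Fintype.card F : ℝ)⁻¹) ^ (fd x y + 1) := by
      unfold tdist; rw [if_neg hxy]
    have hz : tdist y z = ((Fintype.card F : ℝ)⁻¹) ^ (fd y z + 1) := by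
      unfold tdist; rw [if_neg hyz]
    rw [hx, hy, hz]
    have p1 : (0 : ℝ) ≤ ((Fintype.card F : ℝ)⁻¹) ^ (fd x y + 1) := (pow_pos cinv_pos _).le
    have p2 : (0 : ℝ) ≤ ((Fintype.card F : ℝ)⁻¹) ^ (fd y z + 1) := (pow_pos cinv_pos _).le
    rcases min_le_iff.1 h with h | h
    · have := pow_le_pow_of_le_one cinv_pos.le (cinv_lt_one (F := F)).le (Nat.succ_le_succ h)
      exact le_add_of_le_of_nonneg this p2
    · have := pow_le_pow_of_le_one cinv_pos.le (cinv_lt_one (F := F)).le (Nat.succ_le_succ h)
      exact le_add_of_nonneg_of_le p1 this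
  eq_of_dist_eq_zero := by
    intro x y h
    change tdist x y = 0 at h
    unfold tdist at h
    split_ifs at h with hxy
    · exact hxy
    · exact absurd h (pow_pos cinv_pos _).ne'

noncomputable instance : MeasurableSpace (Torus F) := borel _
instance : BorelSpace (Torus F) := ⟨rfl⟩

lemma dist_eq (x y : Torus F) : dist x y = tdist x y := rfl

/-- the words of length `n` of a set of sequences: the initial blocks of its members -/
def words (n : ℕ) (A : Set (Torus F)) : Set (Fin n → F) := (fun s : Torus F => fun i : Fin n => s i) '' A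

lemma words_closure (n : ℕ) (A : Set (Torus F)) : words n (closure A) = words n A := by
  apply Set.Subset.antisymm
  · rintro w ⟨s, hs, rfl⟩
    obtain ⟨s', hs', hd⟩ := Metric.mem_closure_iff.1 hs _ (pow_pos (cinv_pos (F := F)) n)
    refine ⟨s', hs', ?_⟩
    funext i
    exact (eq_of_tdist_lt (by rwa [← dist_eq]) i.2).symm
  · exact Set.image_mono subset_closure

lemma ediam_le_of_word {A : Set (Torus F)} {n : ℕ} {w : Fin n → F}
    (h : ∀ s ∈ A, (fun i : Fin n => s i) = w) :
    Metric.ediam A ≤ ENNReal.ofReal (((Fintype.card F : ℝ)⁻¹) ^ (n + 1)) := by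
  apply Metric.ediam_le
  intro x hx y hy
  rw [edist_dist]
  apply ENNReal.ofReal_le_ofReal
  rw [dist_eq]
  apply tdist_le_of_eq
  intro i hi
  have h1 := congrFun ((h x hx).trans (h y hy).symm) ⟨i, hi⟩
  exact h1

/-- Sets with polynomially many words have dimension zero. -/
theorem dimH_eq_zero_of_words {A : Set (Torus F)} {C r : ℕ}
    (h : ∀ n, 1 ≤ n → (words n A).ncard ≤ C * n ^ r) : dimH A = 0 := by
  rw [← nonpos_iff_eq_zero]
  apply le_of_forall_gt_imp_ge_of_dense
  intro a ha
  obtain ⟨d, hd0, hda⟩ := ENNReal.lt_iff_exists_nnreal_btwn.1 ha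
  refine le_trans ?_ hda.le
  apply dimH_le_of_hausdorffMeasure_ne_top
  have hd : (0 : ℝ) < d := by exact_mod_cast (ENNReal.coe_pos.1 hd0)
  set c : ℝ := (Fintype.card F : ℝ)⁻¹ with hc
  have hc0 : 0 < c := cinv_pos
  have hc1 : c < 1 := cinv_lt_one
  have hfin : ∀ n, (words n A).Finite := fun n => Set.toFinite _
  classical
  let _inst : ∀ n, Fintype {w // w ∈ words n A} := fun n => Fintype.ofFinite _
  have key := Measure.hausdorffMeasure_le_liminf_sum (X := Torus F) (ι := fun n : ℕ => {w // w ∈ words n A})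
    (d : ℝ) A (l := atTop) (fun n => ENNReal.ofReal (c ^ (n + 1)))
    (by
      have h1 : Tendsto (fun n : ℕ => c ^ (n + 1)) atTop (𝓝 0) :=
        (tendsto_pow_atTop_nhds_zero_of_lt_one hc0.le hc1).comp (tendsto_add_atTop_nat 1)
      have := ENNReal.tendsto_ofReal h1
      rwa [ENNReal.ofReal_zero] at this)
    (fun n w => {s | (fun i : Fin n => s i) = w.1})
    (Eventually.of_forall fun n w => ediam_le_of_word (w := w.1) (fun s hs => hs))
    (Eventually.of_forall fun n s hs => Set.mem_iUnion.2 ⟨⟨_, s, hs, rfl⟩, rfl⟩)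
  have bound : ∀ᶠ n : ℕ in atTop, (∑ i : {w // w ∈ words n A},
      Metric.ediam {s : Torus F | (fun i : Fin n => s i) = i.1} ^ (d : ℝ))
      ≤ ENNReal.ofReal (C * ((n : ℝ) ^ r * (c ^ (d : ℝ)) ^ n)) := by
    filter_upwards [eventually_ge_atTop 1] with n hn
    have e1 : ∀ i : {w // w ∈ words n A},
        Metric.ediam {s : Torus F | (fun i : Fin n => s i) = i.1} ^ (d : ℝ)
        ≤ ENNReal.ofReal ((c ^ (d : ℝ)) ^ n) := by
      intro i
      have f1 : Metric.ediam {s : Torus F | (fun i : Fin n => s i) = i.1}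
          ≤ ENNReal.ofReal (c ^ (n + 1)) := ediam_le_of_word (w := i.1) (fun s hs => hs)
      have f2 : ENNReal.ofReal (c ^ (n + 1)) ≤ ENNReal.ofReal (c ^ n) :=
        ENNReal.ofReal_le_ofReal (pow_le_pow_of_le_one hc0.le hc1.le (Nat.le_succ n))
      have f3 := ENNReal.rpow_le_rpow (f1.trans f2) hd.le
      refine f3.trans (le_of_eq ?_)
      rw [ENNReal.ofReal_rpow_of_pos (pow_pos hc0 n)]
      congr 1
      rw [← Real.rpow_natCast, ← Real.rpow_mul hc0.le, mul_comm, Real.rpow_mul hc0.le,
        Real.rpow_natCast]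
    refine (Finset.sum_le_sum (fun i _ => e1 i)).trans ?_
    rw [Finset.sum_const, nsmul_eq_mul, Finset.card_univ, ← Nat.card_eq_fintype_card]
    have e2 : (Nat.card {w // w ∈ words n A} : ℝ≥0∞) ≤ ENNReal.ofReal (C * (n : ℝ) ^ r) := by
      have g1 : Nat.card {w // w ∈ words n A} ≤ C * n ^ r := h n hn
      have g2 : (Nat.card {w // w ∈ words n A} : ℝ≥0∞) ≤ ((C * n ^ r : ℕ) : ℝ≥0∞) := by
        exact_mod_cast g1
      refine g2.trans (le_of_eq ?_)
      rw [← ENNReal.ofReal_natCast]
      push_cast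
      rfl
    refine (mul_le_mul_left e2 _).trans (le_of_eq ?_)
    rw [← ENNReal.ofReal_mul (by positivity)]
    congr 1
    ring
  have lim : Tendsto (fun n : ℕ => ENNReal.ofReal (C * ((n : ℝ) ^ r * (c ^ (d : ℝ)) ^ n)))
      atTop (𝓝 0) := by
    have h2 : |c ^ (d : ℝ)| < 1 := by
      rw [abs_of_pos (Real.rpow_pos_of_pos hc0 _)]
      exact Real.rpow_lt_one hc0.le hc1 hd
    have h3 := (tendsto_pow_const_mul_const_pow_of_abs_lt_one r h2).const_mul (C : ℝ)
    rw [mul_zero] at h3
    have h4 := ENNReal.tendsto_ofReal h3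
    rwa [ENNReal.ofReal_zero] at h4
  have h5 : liminf (fun n : ℕ => ∑ i : {w // w ∈ words n A},
      Metric.ediam {s : Torus F | (fun i : Fin n => s i) = i.1} ^ (d : ℝ)) atTop ≤ 0 := by
    rw [← lim.liminf_eq]
    exact liminf_le_liminf bound
  exact (lt_of_le_of_lt (key.trans h5) ENNReal.zero_lt_top).ne

end H488.FO
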